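import Pool.Agent.Helper58.PB.StS
import Pool.Agent.Helper71.MV.M_FIN

/-!
# Project PB, module MTC (helper4): the primes on a major arc
-/

set_option autoImplicit false

namespace Pool.Agent.Helper4.PB

open Finset ArithmeticFunction
open Pool.Agent.Helper48.BK (ex th Sx)
open Pool.Agent.Helper23.MV (PCh PS ta)
open Pool.Agent.Helper58.PB

private lemma norm_ex_MTC (t : ℝ) : ‖ex t‖ = 1 := by
  unfold ex
  rw [show (2 * Real.pi * t * Complex.I : ℂ) = ((2 * Real.pi * t : ℝ) : ℂ) * Complex.I by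
    push_cast; ring]
  exact Complex.norm_exp_ofReal_mul_I _

private lemma ex_add_MTC (s t : ℝ) : ex (s + t) = ex s * ex t := by
  unfold ex
  rw [← Complex.exp_add]
  congr 1
  push_cast
  ring

private lemma ev_le_MTC (c : PCh) (m : ℕ) : ‖c.ev m‖ ≤ 1 := DirichletCharacter.norm_le_one _ _

theorem hMtc : Pool.Agent.Helper23.MV.StExp → StTa1 → StCps → StMtc := by
  intro hE hT hC P X y q₀ a₀ β hq hqP hcop hy hX
  obtain ⟨-, -, CC, -, hkap⟩ := hT
  obtain ⟨-, hcard, -⟩ := hC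
  have hmem := Pool.Agent.Helper71.MV.hFin.1
  have hlogX : 0 ≤ Real.log X := Real.log_natCast_nonneg X
  set F : Finset PCh := (PS P).filter (fun c => c.r ∣ q₀) with hF
  have hFeq : (PS (q₀ : ℝ)).filter (fun c => c.r ∣ q₀) = F := by
    rw [hF]
    ext c
    rw [mem_filter, mem_filter, hmem, hmem]
    constructor
    · rintro ⟨h1, h2⟩
      exact ⟨h1.trans hqP, h2⟩
    · rintro ⟨_, h2⟩
      exact ⟨by exact_mod_cast Nat.le_of_dvd (by omega) h2, h2⟩
  have hdiff : Sx th y ((a₀ : ℝ) / q₀ + β) - ∑ c ∈ F, kap c q₀ a₀ * Tc c y β =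
      ∑ n ∈ Ioc 0 y, ((th n : ℝ) : ℂ) * ex (n * β) *
        (ex ((n : ℝ) * a₀ / q₀) - ∑ c ∈ F, kap c q₀ a₀ * c.ev n) := by
    unfold Sx Tc
    have e1 : ∑ c ∈ F, kap c q₀ a₀ * ∑ n ∈ Ioc 0 y, ((th n : ℝ) : ℂ) * c.ev n * ex (n * β) =
        ∑ n ∈ Ioc 0 y, ((th n : ℝ) : ℂ) * ex (n * β) * ∑ c ∈ F, kap c q₀ a₀ * c.ev n := by
      simp_rw [mul_sum]
      rw [sum_comm]
      apply sum_congr rfl
      intro n _
      apply sum_congr rfl
      intro c _
      ring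
    rw [e1, ← sum_sub_distrib]
    apply sum_congr rfl
    intro n _
    have e2 : (n : ℝ) * ((a₀ : ℝ) / q₀ + β) = (n : ℝ) * a₀ / q₀ + n * β := by ring
    rw [e2, ex_add_MTC]
    ring
  rw [hdiff]
  set g : ℕ → ℂ := fun n => ((th n : ℝ) : ℂ) * ex (n * β) *
        (ex ((n : ℝ) * a₀ / q₀) - ∑ c ∈ F, kap c q₀ a₀ * c.ev n) with hg
  have hzero : ∀ n ∈ Ioc 0 y, n ∉ (Ioc 0 y).filter (fun n => n.Prime ∧ n ∣ q₀) → g n = 0 := by
    intro n hn hnot
    rw [hg]
    by_cases hp : n.Prime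
    · have hnd : ¬ n ∣ q₀ := fun h => hnot (mem_filter.2 ⟨hn, hp, h⟩)
      have hc : Nat.Coprime n q₀ := (Nat.Prime.coprime_iff_not_dvd hp).2 hnd
      have h1 := hE q₀ n a₀ hq hc hcop
      rw [hFeq] at h1
      have h2 : ex ((n : ℝ) * a₀ / q₀) - ∑ c ∈ F, kap c q₀ a₀ * c.ev n = 0 := by
        rw [h1, mul_sum, ← sum_sub_distrib]
        apply sum_eq_zero
        intro c _
        unfold kap
        ring
      simp only [h2, mul_zero]
    · have : th n = 0 := by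
        unfold th
        rw [if_neg hp]
      simp [this]
  have hsum : ∑ n ∈ Ioc 0 y, g n =
      ∑ n ∈ (Ioc 0 y).filter (fun n => n.Prime ∧ n ∣ q₀), g n :=
    (sum_subset (filter_subset _ _) hzero).symm
  rw [hsum]
  have hq1 : (1 : ℝ) ≤ q₀ := by exact_mod_cast hq
  have hbound : ∀ n ∈ (Ioc 0 y).filter (fun n => n.Prime ∧ n ∣ q₀),
      ‖g n‖ ≤ Real.log X * (1 + q₀) := by
    intro n hn
    rw [mem_filter, mem_Ioc] at hn
    obtain ⟨⟨hn0, hny⟩, hp, hd⟩ := hn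
    rw [hg]
    simp only
    rw [norm_mul, norm_mul, norm_ex_MTC, mul_one, Complex.norm_real]
    have hth : ‖th n‖ ≤ Real.log X := by
      unfold th
      rw [if_pos hp, Real.norm_eq_abs, abs_of_nonneg (Real.log_natCast_nonneg n)]
      apply Real.log_le_log (by exact_mod_cast hn0)
      exact_mod_cast hny.trans hy
    have hbr : ‖ex ((n : ℝ) * a₀ / q₀) - ∑ c ∈ F, kap c q₀ a₀ * c.ev n‖ ≤ 1 + q₀ := by
      refine (norm_sub_le _ _).trans ?_
      rw [norm_ex_MTC]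
      gcongr
      refine (norm_sum_le _ _).trans ?_
      calc ∑ c ∈ F, ‖kap c q₀ a₀ * c.ev n‖ ≤ ∑ c ∈ F, (1 : ℝ) := by
            apply sum_le_sum
            intro c hc
            rw [norm_mul]
            have h1 := (hkap c q₀ a₀ hq (mem_filter.1 hc).2).1
            have h2 := ev_le_MTC c n
            calc ‖kap c q₀ a₀‖ * ‖c.ev n‖ ≤ 1 * 1 :=
                  mul_le_mul h1 h2 (norm_nonneg _) zero_le_one
              _ = 1 := one_mul 1
        _ = (F.card : ℝ) := by simp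
        _ ≤ q₀ := hcard P q₀ hq
    exact mul_le_mul hth hbr (norm_nonneg _) hlogX
  have hcardn : (((Ioc 0 y).filter (fun n => n.Prime ∧ n ∣ q₀)).card : ℝ) ≤ q₀ := by
    have hsub : (Ioc 0 y).filter (fun n => n.Prime ∧ n ∣ q₀) ⊆ Ioc 0 q₀ := by
      intro n hn
      rw [mem_filter, mem_Ioc] at hn
      rw [mem_Ioc]
      exact ⟨hn.1.1, Nat.le_of_dvd (by omega) hn.2.2⟩
    have := card_le_card hsub
    rw [Nat.card_Ioc] at this
    exact_mod_cast this
  calc ‖∑ n ∈ (Ioc 0 y).filter (fun n => n.Prime ∧ n ∣ q₀), g n‖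
      ≤ ∑ n ∈ (Ioc 0 y).filter (fun n => n.Prime ∧ n ∣ q₀), Real.log X * (1 + q₀) :=
        norm_sum_le_of_le _ hbound
    _ = (((Ioc 0 y).filter (fun n => n.Prime ∧ n ∣ q₀)).card : ℝ) * (Real.log X * (1 + q₀)) := by
        rw [sum_const, nsmul_eq_mul]
    _ ≤ q₀ * (Real.log X * (1 + q₀)) :=
        mul_le_mul_of_nonneg_right hcardn (mul_nonneg hlogX (by linarith))
    _ = (q₀ + q₀ ^ 2) * Real.log X := by ring
    _ ≤ (2 * P ^ 2) * Real.log X := by
        apply mul_le_mul_of_nonneg_right _ hlogX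
        have h1 : (q₀ : ℝ) ≤ q₀ ^ 2 := by nlinarith
        have h2 : (q₀ : ℝ) ^ 2 ≤ P ^ 2 := by
          apply pow_le_pow_left₀ (by linarith) hqP
        linarith
    _ = 2 * P ^ 2 * Real.log X := by ring

end Pool.Agent.Helper4.PB
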