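import Pool.Agent.Helper58.PB.StM
import Pool.Agent.Helper29.GK.M_RAM

/-!
# Project PB, module RM3 (helper4): average of three Ramanujan sums over the solutions modulo `T`
-/

set_option autoImplicit false

namespace Pool.Agent.Helper4.PB

open Finset ArithmeticFunction
open Pool.Agent.Helper48.BK (ex Cl)
open Pool.Agent.Helper23.GK (cR)
open Pool.Agent.Helper58.PB

/-- `e(n/T)` -/
private noncomputable def eT (T : ℕ) (n : ℤ) : ℂ := ex ((n : ℝ) / T)

private lemma eT_add (T : ℕ) (m n : ℤ) : eT T (m + n) = eT T m * eT T n := by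
  unfold eT ex
  rw [← Complex.exp_add]
  congr 1
  push_cast
  ring

private lemma eT_orth (T : ℕ) (hT : 0 < T) (n : ℤ) :
    ∑ j ∈ range T, eT T (n * j) = if (T : ℤ) ∣ n then (T : ℂ) else 0 := by
  rw [← Pool.Agent.Helper29.GK.full_RAM T n hT]
  apply sum_congr rfl
  intro j _
  unfold eT
  congr 1
  push_cast
  ring

private lemma cR_neg (t : ℕ) (n : ℤ) : cR t (-n) = cR t n := by
  unfold cR
  simp only [dvd_neg]

/-- Ramanujan sums as sums over the residues with denominator `t` -/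
private lemma cR_exp (hR : Pool.Agent.Helper23.GK.StRam) (T t : ℕ) (hT : 0 < T) (h : t ∣ T) (n : ℤ) :
    ((cR t n : ℤ) : ℂ) =
      ∑ α ∈ (range T).filter (fun α => T / Nat.gcd T α = t), eT T (n * α) := by
  obtain ⟨k, rfl⟩ := h
  have ht : 0 < t := by
    rcases Nat.eq_zero_or_pos t with h0 | h0
    · subst h0; simp at hT
    · exact h0
  have hk : 0 < k := by
    rcases Nat.eq_zero_or_pos k with h0 | h0
    · subst h0; simp at hT
    · exact h0
  rw [hR.1 t n ht]
  apply Finset.sum_bij' (fun h _ => k * h) (fun α _ => α / k)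
  · intro h hh
    rw [mem_filter, mem_range] at hh ⊢
    refine ⟨?_, ?_⟩
    · rw [mul_comm t k]
      exact Nat.mul_lt_mul_of_pos_left hh.1 hk
    · have : Nat.gcd (t * k) (k * h) = k := by
        rw [mul_comm t k, Nat.gcd_mul_left, Nat.gcd_comm t h, hh.2.gcd_eq_one, mul_one]
      rw [this]
      exact Nat.mul_div_cancel t hk
  · intro α hα
    rw [mem_filter, mem_range] at hα ⊢
    obtain ⟨h1, h2⟩ := hα
    have hg : Nat.gcd (t * k) α = k := by
      have h3 : Nat.gcd (t * k) α ∣ t * k := Nat.gcd_dvd_left _ _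
      have h4 : t * k = t * Nat.gcd (t * k) α := by
        have := Nat.div_mul_cancel h3
        rw [h2] at this
        exact this.symm
      exact (Nat.eq_of_mul_eq_mul_left ht h4).symm
    have hkα : k ∣ α := by
      rw [← hg]
      exact Nat.gcd_dvd_right _ _
    obtain ⟨m, rfl⟩ := hkα
    rw [Nat.mul_div_cancel_left m hk]
    refine ⟨?_, ?_⟩
    · rw [mul_comm t k] at h1
      exact Nat.lt_of_mul_lt_mul_left h1
    · rw [mul_comm t k, Nat.gcd_mul_left] at hg
      have : Nat.gcd t m = 1 := by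
        have h5 : k * Nat.gcd t m = k * 1 := by rw [hg, mul_one]
        exact Nat.eq_of_mul_eq_mul_left hk h5
      rw [Nat.Coprime, Nat.gcd_comm]
      exact this
  · intro h _
    exact Nat.mul_div_cancel_left h hk
  · intro α hα
    rw [mem_filter, mem_range] at hα
    obtain ⟨h1, h2⟩ := hα
    have hg : Nat.gcd (t * k) α = k := by
      have h3 : Nat.gcd (t * k) α ∣ t * k := Nat.gcd_dvd_left _ _
      have h4 : t * k = t * Nat.gcd (t * k) α := by
        have := Nat.div_mul_cancel h3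
        rw [h2] at this
        exact this.symm
      exact (Nat.eq_of_mul_eq_mul_left ht h4).symm
    have hkα : k ∣ α := by
      rw [← hg]
      exact Nat.gcd_dvd_right _ _
    exact Nat.mul_div_cancel' hkα
  · intro h _
    unfold eT
    congr 1
    have hk' : (k : ℝ) ≠ 0 := by exact_mod_cast hk.ne'
    have ht' : (t : ℝ) ≠ 0 := by exact_mod_cast ht.ne'
    push_cast
    field_simp

/-- the twisted sum of a Ramanujan sum over all residues -/
private lemma inner (hR : Pool.Agent.Helper23.GK.StRam) (T t : ℕ) (hT : 0 < T) (h : t ∣ T) (m : ℤ) :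
    ∑ u ∈ range T, eT T (m * u) * ((cR t u : ℤ) : ℂ) =
      if T / Nat.gcd T m.natAbs = t then (T : ℂ) else 0 := by
  have hT' : (T : ℤ) ≠ 0 := by exact_mod_cast hT.ne'
  have h1 : ∀ u ∈ range T, eT T (m * u) * ((cR t u : ℤ) : ℂ) =
      ∑ α ∈ (range T).filter (fun α => T / Nat.gcd T α = t), eT T ((m + α) * u) := by
    intro u _
    rw [cR_exp hR T t hT h, mul_sum]
    apply sum_congr rfl
    intro α _
    rw [← eT_add]
    congr 1
    ring
  rw [sum_congr rfl h1, sum_comm]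
  simp_rw [eT_orth T hT]
  set α0 : ℕ := ((-m) % (T : ℤ)).toNat with hα0
  have h0 : ((α0 : ℕ) : ℤ) = (-m) % (T : ℤ) := by
    rw [hα0]
    exact Int.toNat_of_nonneg (Int.emod_nonneg _ hT')
  have hlt : α0 < T := by
    have := Int.emod_lt_of_pos (-m) (by exact_mod_cast hT : (0 : ℤ) < T)
    rw [← h0] at this
    exact_mod_cast this
  have hdv : (T : ℤ) ∣ m + α0 := by
    rw [h0]
    have := Int.emod_add_mul_ediv (-m) (T : ℤ)
    refine ⟨-((-m) / (T : ℤ)), ?_⟩
    linear_combination this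
  have huniq : ∀ α ∈ (range T).filter (fun α => T / Nat.gcd T α = t),
      (if (T : ℤ) ∣ m + α then (T : ℂ) else 0) = if α = α0 then (T : ℂ) else 0 := by
    intro α hα
    have hαlt : α < T := mem_range.1 (mem_filter.1 hα).1
    congr 1
    apply propext
    constructor
    · intro hd
      have h2 : (T : ℤ) ∣ (α : ℤ) - α0 := by
        have := dvd_sub hd hdv
        rwa [add_sub_add_left_eq_sub] at this
      have h3 : (α : ℤ) - α0 = 0 := by
        apply Int.eq_zero_of_abs_lt_dvd h2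
        rw [abs_lt]
        constructor <;> omega
      omega
    · rintro rfl
      exact hdv
  rw [sum_congr rfl huniq, sum_ite_eq']
  have hg : Nat.gcd T α0 = Nat.gcd T m.natAbs := by
    have e1 : Nat.gcd T α0 = Int.gcd (T : ℤ) (α0 : ℤ) := by simp [Int.gcd]
    have e2 : Nat.gcd T m.natAbs = Int.gcd (T : ℤ) m := by simp [Int.gcd]
    rw [e1, e2]
    obtain ⟨q, hq⟩ := hdv
    have : (α0 : ℤ) = -m + T * q := by linear_combination hq
    rw [this, Int.gcd_add_mul_left_right, Int.gcd_neg]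
  congr 1
  apply propext
  rw [mem_filter, mem_range, hg]
  exact ⟨fun h => h.2, fun h => ⟨hlt, h⟩⟩

theorem hRm3 : Pool.Agent.Helper23.GK.StRam → StRm3 := by
  intro hR a b c T t₁ t₂ t₃ d h1 h2 h3 hT _
  have hTpos : 0 < T := by
    rw [hT]
    exact Nat.lcm_pos h1 (Nat.lcm_pos h2 h3)
  have d1 : t₁ ∣ T := by rw [hT]; exact Nat.dvd_lcm_left _ _
  have d2 : t₂ ∣ T := by
    rw [hT]; exact (Nat.dvd_lcm_left _ _).trans (Nat.dvd_lcm_right _ _)
  have d3 : t₃ ∣ T := by
    rw [hT]; exact (Nat.dvd_lcm_right _ _).trans (Nat.dvd_lcm_right _ _)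
  have hTc : (T : ℂ) ≠ 0 := by exact_mod_cast hTpos.ne'
  -- the sum over the solutions
  have hsum : ∑ u ∈ Cl a b c d T,
      ((cR t₁ u.1 : ℤ) : ℂ) * ((cR t₂ u.2.1 : ℤ) : ℂ) * ((cR t₃ u.2.2 : ℤ) : ℂ) =
      (1 / (T : ℂ)) * ∑ l ∈ range T, eT T (-d * l) *
        ((∑ u ∈ range T, eT T ((l * a : ℤ) * u) * ((cR t₁ u : ℤ) : ℂ)) *
        ((∑ v ∈ range T, eT T ((l * b : ℤ) * v) * ((cR t₂ v : ℤ) : ℂ)) *
        (∑ w ∈ range T, eT T (-(l * c : ℤ) * w) * ((cR t₃ w : ℤ) : ℂ)))) := by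
    unfold Cl
    rw [sum_filter, sum_product]
    simp_rw [sum_product]
    have hind : ∀ u v w : ℕ, (if (T : ℤ) ∣ a * u + b * v - c * w - d then
        ((cR t₁ u : ℤ) : ℂ) * ((cR t₂ v : ℤ) : ℂ) * ((cR t₃ w : ℤ) : ℂ) else 0) =
        (1 / (T : ℂ)) * ∑ l ∈ range T, eT T (-d * l) *
          ((eT T ((l * a : ℤ) * u) * ((cR t₁ u : ℤ) : ℂ)) *
          ((eT T ((l * b : ℤ) * v) * ((cR t₂ v : ℤ) : ℂ)) *
          (eT T (-(l * c : ℤ) * w) * ((cR t₃ w : ℤ) : ℂ)))) := by
      intro u v w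
      have e1 : ∀ l ∈ range T, eT T (-d * l) *
          ((eT T ((l * a : ℤ) * u) * ((cR t₁ u : ℤ) : ℂ)) *
          ((eT T ((l * b : ℤ) * v) * ((cR t₂ v : ℤ) : ℂ)) *
          (eT T (-(l * c : ℤ) * w) * ((cR t₃ w : ℤ) : ℂ)))) =
          ((cR t₁ u : ℤ) : ℂ) * ((cR t₂ v : ℤ) : ℂ) * ((cR t₃ w : ℤ) : ℂ) *
            eT T ((a * u + b * v - c * w - d) * l) := by
        intro l _
        have : ((a * u + b * v - c * w - d) * l : ℤ) =
            -d * l + ((l * a : ℤ) * u + ((l * b : ℤ) * v + -(l * c : ℤ) * w)) := by ring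
        rw [this, eT_add, eT_add, eT_add]
        ring
      rw [sum_congr rfl e1, ← mul_sum, eT_orth T hTpos]
      split_ifs
      · field_simp
      · simp
    simp_rw [hind, ← mul_sum]
    congr 1
    simp_rw [sum_mul_sum, mul_sum]
    rw [sum_congr rfl (fun u _ => sum_congr rfl (fun v _ => sum_comm))]
    rw [sum_congr rfl (fun u _ => sum_comm)]
    rw [sum_comm]
  unfold En
  rw [hsum]
  simp_rw [inner hR T t₁ hTpos d1, inner hR T t₂ hTpos d2, inner hR T t₃ hTpos d3]
  have hna : ∀ l : ℕ, ((l : ℤ) * (a : ℤ)).natAbs = l * a := fun l => by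
    rw [← Nat.cast_mul, Int.natAbs_natCast]
  have hnb : ∀ l : ℕ, ((l : ℤ) * (b : ℤ)).natAbs = l * b := fun l => by
    rw [← Nat.cast_mul, Int.natAbs_natCast]
  have hnc : ∀ l : ℕ, (-((l : ℤ) * (c : ℤ))).natAbs = l * c := fun l => by
    rw [Int.natAbs_neg, ← Nat.cast_mul, Int.natAbs_natCast]
  simp_rw [hna, hnb, hnc]
  -- the conditions on `l`
  have hcond : ∀ l : ℕ, (T / Nat.gcd T (l * a) = t₁ ∧ T / Nat.gcd T (l * b) = t₂ ∧
      T / Nat.gcd T (l * c) = t₃) ↔
      (Nat.Coprime l T ∧ (t₁ = T / Nat.gcd T a ∧ t₂ = T / Nat.gcd T b ∧ t₃ = T / Nat.gcd T c)) := by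
    intro l
    have hcop : Nat.Coprime l T → ∀ x : ℕ, Nat.gcd T (l * x) = Nat.gcd T x := by
      intro hc x
      exact Nat.Coprime.gcd_mul_left_cancel_right x hc
    constructor
    · rintro ⟨g1, g2, g3⟩
      have hg : Nat.gcd l T ∣ T := Nat.gcd_dvd_right _ _
      have key : ∀ x : ℕ, T / Nat.gcd T (l * x) ∣ T / Nat.gcd l T := by
        intro x
        apply Nat.div_dvd_div_left (Nat.gcd_dvd_left _ _)
        exact Nat.dvd_gcd hg ((Nat.gcd_dvd_left _ _).mul_right x)
      have hdiv : T ∣ T / Nat.gcd l T := by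
        conv_lhs => rw [hT]
        refine Nat.lcm_dvd ?_ (Nat.lcm_dvd ?_ ?_)
        · rw [← g1]; exact key a
        · rw [← g2]; exact key b
        · rw [← g3]; exact key c
      have hcop1 : Nat.Coprime l T := by
        have hle : T ≤ T / Nat.gcd l T :=
          Nat.le_of_dvd (Nat.div_pos (Nat.le_of_dvd hTpos hg) (Nat.gcd_pos_of_pos_right _ hTpos)) hdiv
        have hgp : 0 < Nat.gcd l T := Nat.gcd_pos_of_pos_right _ hTpos
        by_contra hne
        have h2 : 2 ≤ Nat.gcd l T := by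
          rw [Nat.Coprime] at hne
          omega
        have : T / Nat.gcd l T < T := Nat.div_lt_self hTpos h2
        omega
      refine ⟨hcop1, ?_, ?_, ?_⟩
      · rw [← hcop hcop1 a]; exact g1.symm
      · rw [← hcop hcop1 b]; exact g2.symm
      · rw [← hcop hcop1 c]; exact g3.symm
    · rintro ⟨hc, g1, g2, g3⟩
      rw [hcop hc, hcop hc, hcop hc]
      exact ⟨g1.symm, g2.symm, g3.symm⟩
  have hterm : ∀ l ∈ range T, eT T (-d * l) *
      ((if T / Nat.gcd T (l * a) = t₁ then (T : ℂ) else 0) *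
      ((if T / Nat.gcd T (l * b) = t₂ then (T : ℂ) else 0) *
      (if T / Nat.gcd T (l * c) = t₃ then (T : ℂ) else 0))) =
      (T : ℂ) ^ 3 * (if (Nat.Coprime l T ∧ (t₁ = T / Nat.gcd T a ∧ t₂ = T / Nat.gcd T b ∧
        t₃ = T / Nat.gcd T c)) then eT T (-d * l) else 0) := by
    intro l _
    rw [← if_congr (hcond l) rfl rfl]
    by_cases g1 : T / Nat.gcd T (l * a) = t₁ <;> by_cases g2 : T / Nat.gcd T (l * b) = t₂ <;>
      by_cases g3 : T / Nat.gcd T (l * c) = t₃ <;> (simp [g1, g2, g3]; try ring)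
  rw [sum_congr rfl hterm, ← mul_sum]
  have hfac : ∀ z : ℂ, 1 / (T : ℂ) ^ 2 * (1 / (T : ℂ) * ((T : ℂ) ^ 3 * z)) = z := by
    intro z
    field_simp
  rw [hfac]
  split_ifs with hc
  · rw [← cR_neg, hR.1 T (-d) hTpos, sum_filter]
    apply sum_congr rfl
    intro l _
    by_cases hl : Nat.Coprime l T
    · rw [if_pos ⟨hl, hc⟩, if_pos hl]
      unfold eT
      congr 1
      push_cast
      ring
    · rw [if_neg (fun h => hl h.1), if_neg hl]
  · apply sum_eq_zero
    intro l _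
    rw [if_neg (fun h => hc h.2)]

end Pool.Agent.Helper4.PB
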