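import Pool.Agent.Helper58.PB.StM

/-!
# Project PB, module SBX (helper4): sum over boxes
-/

set_option autoImplicit false

namespace Pool.Agent.Helper4.PB

open Finset
open Pool.Agent.Helper58.PB

/-- cutting an interval into pieces of length `≤ B` -/
private lemma chain_SBX (g : ℕ → ℕ → ℝ)
    (hadd : ∀ i' I₁ I₂ : ℕ, g i' (I₁ + I₂) = g i' I₁ + g (i' + I₁) I₂)
    (A β : ℝ) (hβ : 0 ≤ β) (B : ℕ) (hB : 1 ≤ B) (i I : ℕ)
    (h : ∀ i' I' : ℕ, i ≤ i' → i' + I' ≤ i + I → I' ≤ B → (I' : ℝ) * A - β ≤ g i' I') :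
    ∀ I' i' : ℕ, i ≤ i' → i' + I' ≤ i + I → (I' : ℝ) * A - β * ((I' : ℝ) / B + 1) ≤ g i' I' := by
  have hB0 : (0 : ℝ) < B := by exact_mod_cast hB
  intro I'
  induction I' using Nat.strong_induction_on with
  | _ I' ih =>
    intro i' h1 h2
    rcases Nat.lt_or_ge B I' with hlt | hle
    · obtain ⟨K, rfl⟩ := Nat.exists_eq_add_of_lt hlt
      have e : B + K + 1 = B + (K + 1) := by ring
      rw [e, hadd]
      have ha := h i' B h1 (by omega) le_rfl
      have hb := ih (K + 1) (by omega) (i' + B) (by omega) (by omega)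
      have e2 : (((B + (K + 1) : ℕ) : ℝ)) / B + 1 = (((K + 1 : ℕ) : ℝ) / B + 1) + 1 := by
        push_cast
        field_simp
        ring
      rw [e2]
      have e3 : (((B + (K + 1) : ℕ) : ℝ)) * A = (B : ℝ) * A + ((K + 1 : ℕ) : ℝ) * A := by
        push_cast
        ring
      rw [e3]
      linarith
    · have ha := h i' I' h1 h2 hle
      have h3 : 0 ≤ β * ((I' : ℝ) / B) := mul_nonneg hβ (div_nonneg (Nat.cast_nonneg _) hB0.le)
      linarith

theorem hSbx : StSbx := by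
  intro a b c i I j J B₁ B₂ d f α β hB₁ hB₂ hβ h
  have hB₁' : (0 : ℝ) < B₁ := by exact_mod_cast hB₁
  -- the sum over a box as an iterated sum
  have hS : ∀ i' I' j' J' : ℕ, ∑ v ∈ Bx a b c d i' I' j' J', f v =
      ∑ n ∈ Ioc i' (i' + I'), ∑ m ∈ Ioc j' (j' + J'),
        if (c : ℤ) ∣ a * n + b * m - d then f (n, m) else 0 := by
    intro i' I' j' J'
    unfold Bx
    rw [sum_filter, sum_product]
  have hadd1 : ∀ j' J' i' I₁ I₂ : ℕ, ∑ v ∈ Bx a b c d i' (I₁ + I₂) j' J', f v =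
      ∑ v ∈ Bx a b c d i' I₁ j' J', f v + ∑ v ∈ Bx a b c d (i' + I₁) I₂ j' J', f v := by
    intro j' J' i' I₁ I₂
    rw [hS, hS, hS, ← add_assoc]
    exact (sum_Ioc_consecutive _ (by omega) (by omega)).symm
  have hadd2 : ∀ i' I' j' J₁ J₂ : ℕ, ∑ v ∈ Bx a b c d i' I' j' (J₁ + J₂), f v =
      ∑ v ∈ Bx a b c d i' I' j' J₁, f v + ∑ v ∈ Bx a b c d i' I' (j' + J₁) J₂, f v := by
    intro i' I' j' J₁ J₂
    rw [hS, hS, hS, ← add_assoc, ← sum_add_distrib]
    apply sum_congr rfl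
    intro n _
    exact (sum_Ioc_consecutive _ (by omega) (by omega)).symm
  have step1 : ∀ j' J' : ℕ, j ≤ j' → j' + J' ≤ j + J → J' ≤ B₂ →
      (J' : ℝ) * ((I : ℝ) * α) - β * ((I : ℝ) / B₁ + 1) ≤ ∑ v ∈ Bx a b c d i I j' J', f v := by
    intro j' J' h1 h2 h3
    have := chain_SBX (fun i' I' => ∑ v ∈ Bx a b c d i' I' j' J', f v) (hadd1 j' J')
      ((J' : ℝ) * α) β hβ B₁ hB₁ i I
      (fun i' I' g1 g2 g3 => by
        have := h i' I' j' J' g1 g2 h1 h2 g3 h3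
        simpa [mul_assoc] using this) I i le_rfl le_rfl
    have e : (J' : ℝ) * ((I : ℝ) * α) = (I : ℝ) * ((J' : ℝ) * α) := by ring
    rw [e]
    exact this
  have hβ' : 0 ≤ β * ((I : ℝ) / B₁ + 1) :=
    mul_nonneg hβ (add_nonneg (div_nonneg (Nat.cast_nonneg _) hB₁'.le) zero_le_one)
  have := chain_SBX (fun j' J' => ∑ v ∈ Bx a b c d i I j' J', f v) (hadd2 i I)
    ((I : ℝ) * α) (β * ((I : ℝ) / B₁ + 1)) hβ' B₂ hB₂ j J step1 J j le_rfl le_rfl
  have e : (I : ℝ) * J * α = (J : ℝ) * ((I : ℝ) * α) := by ring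
  rw [e]
  exact this

end Pool.Agent.Helper4.PB
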